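import Mathlib

/-!
# A logarithmic potential
-/

set_option autoImplicit false

namespace Pool.Agent.KS6_54.MP

/-- the potential `± log |t + c|`, cut off at `δ` -/
noncomputable def Lg (c δ t : ℝ) : ℝ := Real.log (max (t + c) δ) - Real.log (max (-(t + c)) δ)

theorem Lg_mono {c δ : ℝ} (hδ : 0 < δ) : Monotone (Lg c δ) := by
  intro s t hst
  unfold Lg
  have h1 : Real.log (max (s + c) δ) ≤ Real.log (max (t + c) δ) :=
    Real.log_le_log (lt_max_of_lt_right hδ) (max_le_max_right _ (by linarith))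
  have h2 : Real.log (max (-(t + c)) δ) ≤ Real.log (max (-(s + c)) δ) :=
    Real.log_le_log (lt_max_of_lt_right hδ) (max_le_max_right _ (by linarith))
  linarith

theorem Lg_range {c δ Q t t' : ℝ} (hδ : 0 < δ) (hQ : δ ≤ Q) (h : |t + c| ≤ Q)
    (h' : |t' + c| ≤ Q) : Lg c δ t' - Lg c δ t ≤ 2 * (Real.log Q - Real.log δ) := by
  unfold Lg
  rw [abs_le] at h h'
  have lo : ∀ x : ℝ, Real.log δ ≤ Real.log (max x δ) := fun x =>
    Real.log_le_log hδ (le_max_right _ _)
  have up : ∀ x : ℝ, x ≤ Q → Real.log (max x δ) ≤ Real.log Q := fun x hx =>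
    Real.log_le_log (lt_max_of_lt_right hδ) (max_le hx hQ)
  have h1 := up (t' + c) h'.2
  have h2 := up (-(t + c)) (by linarith [h.1])
  have h3 := lo (t + c)
  have h4 := lo (-(t' + c))
  linarith

theorem log_gap {x y : ℝ} (hx : 0 < x) (hxy : x < y) : (y - x) / y ≤ Real.log y - Real.log x := by
  have hy : 0 < y := hx.trans hxy
  rw [← Real.log_div hy.ne' hx.ne']
  have h := Real.one_sub_inv_le_log_of_pos (div_pos hy hx)
  rw [inv_div] at h
  calc (y - x) / y = 1 - x / y := by field_simp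
    _ ≤ _ := h

theorem Lg_pos {c δ t t' : ℝ} (hδ : 0 < δ) (h : δ ≤ t + c) (hlt : t < t') :
    (t' - t) / (t' + c) ≤ Lg c δ t' - Lg c δ t := by
  unfold Lg
  rw [max_eq_left h, max_eq_left (by linarith : δ ≤ t' + c),
    max_eq_right (by linarith : -(t + c) ≤ δ), max_eq_right (by linarith : -(t' + c) ≤ δ)]
  have := log_gap (x := t + c) (y := t' + c) (by linarith) (by linarith)
  rw [show t' + c - (t + c) = t' - t by ring] at this
  linarith

theorem Lg_neg {c δ t t' : ℝ} (hδ : 0 < δ) (h : t' + c ≤ -δ) (hlt : t < t') :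
    (t' - t) / (-(t + c)) ≤ Lg c δ t' - Lg c δ t := by
  unfold Lg
  rw [max_eq_right (by linarith : t + c ≤ δ), max_eq_right (by linarith : t' + c ≤ δ),
    max_eq_left (by linarith : δ ≤ -(t + c)), max_eq_left (by linarith : δ ≤ -(t' + c))]
  have := log_gap (x := -(t' + c)) (y := -(t + c)) (by linarith) (by linarith)
  rw [show -(t + c) - -(t' + c) = t' - t by ring] at this
  linarith

end Pool.Agent.KS6_54.MP
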