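import Pool.Agent.KS6_54.MP.Grid
import Pool.Agent.KS6_54.MP.Lg

/-!
# The potential of a direction

All rows lie on lines through (almost) one point. So for the rows that are not orthogonal to the
direction the linear form is, up to a constant, the product of a number that depends on the row
and a number between `3M/2` and `3M` that depends on the position in the row, and its logarithm is
a potential.
-/

set_option autoImplicit false

namespace Pool.Agent.KS6_54.MP

open Finset

/-- the bound for one path -/
noncomputable def BB (M : ℕ) : ℝ := 16 * M * Real.log (64 * M) + 8 * M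

/-- the shift that makes the linear form a product -/
theorem inner_shift (M : ℕ) (hM : 1 ≤ M) (ε : ℝ) (i b : ℕ) {u : E2} (hu : u 1 ≠ 0) :
    (inner ℝ (pt M ε i b) u : ℝ) + (2 * M * u 0 + u 0 ^ 2 / (2 * u 1)) =
      (u 0 + u 1 * (b / (2 * M))) * (i + 2 * M + u 0 / (2 * u 1)) +
        u 1 * ε ^ (M * b + i + 1) := by
  have hM0 : (M : ℝ) ≠ 0 := by
    have : (1 : ℝ) ≤ M := by exact_mod_cast hM
    linarith
  rw [inner_pt, px, py]
  field_simp
  ring

theorem small_pow {ε : ℝ} (hε : 0 < ε) (hε1 : ε ≤ 1) (k : ℕ) :
    0 ≤ ε ^ (k + 1) ∧ ε ^ (k + 1) ≤ ε := by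
  refine ⟨by positivity, ?_⟩
  calc ε ^ (k + 1) ≤ ε ^ 1 := pow_le_pow_of_le_one hε.le hε1 (by omega)
    _ = ε := pow_one ε

theorem dir_pot {M : ℕ} (hM : 16 ≤ M) {ε : ℝ} (hε : 0 < ε)
    (hεM : ε * (64 * (M + 1)) ≤ 1) {u : E2} (hu : u ≠ 0) :
    ∃ Ψ : ℝ → ℝ, Monotone Ψ ∧
      (∀ i b i' b' : ℕ, i < M → b < M → i' < M → b' < M →
        Ψ (inner ℝ (pt M ε i' b') u) - Ψ (inner ℝ (pt M ε i b) u) ≤ BB M) ∧
      ∀ i i' b : ℕ, i < M → i' < M → b < M →
        (inner ℝ (pt M ε i b) u : ℝ) < inner ℝ (pt M ε i' b) u →
        |(i' : ℝ) - i| ≤ Ψ (inner ℝ (pt M ε i' b) u) - Ψ (inner ℝ (pt M ε i b) u) := by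
  classical
  have hMR : (16 : ℝ) ≤ M := by exact_mod_cast hM
  have hsz := sz_pos hu
  have hε1 : ε ≤ 1 / 64 := by nlinarith
  have hεM1 : ε * (M + 1) < 1 := by nlinarith
  have hlog : 1 ≤ Real.log (64 * M) := by
    rw [Real.le_log_iff_exp_le (by positivity)]
    have := Real.exp_one_lt_d9
    linarith
  have hBB : 16 * (M : ℝ) ≤ BB M := by
    unfold BB
    nlinarith
  have a0 := abs_nonneg (u 0)
  have a1 := abs_nonneg (u 1)
  -- the increments in a row
  have hincr : ∀ i i' b : ℕ, (inner ℝ (pt M ε i' b) u : ℝ) - inner ℝ (pt M ε i b) u =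
      (u 0 + u 1 * (b / (2 * M))) * ((i' : ℝ) - i) +
        u 1 * (ε ^ (M * b + i' + 1) - ε ^ (M * b + i + 1)) := by
    intro i i' b
    rw [inner_pt, inner_pt, px, py, px, py]
    ring
  have htau : ∀ i i' b : ℕ, |u 1 * (ε ^ (M * b + i' + 1) - ε ^ (M * b + i + 1))| ≤ |u 1| * ε := by
    intro i i' b
    rw [abs_mul]
    refine mul_le_mul_of_nonneg_left ?_ a1
    have h1 := small_pow hε (by linarith) (M * b + i)
    have h2 := small_pow hε (by linarith) (M * b + i')
    rw [abs_le]
    constructor <;> linarith [h1.1, h1.2, h2.1, h2.2]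
  have hone : ∀ i i' : ℕ, i ≠ i' → 1 ≤ |(i' : ℝ) - i| := by
    intro i i' hne'
    rcases Nat.lt_or_gt_of_ne hne' with h | h
    · have : (i : ℝ) + 1 ≤ i' := by exact_mod_cast h
      rw [abs_of_nonneg (by linarith)]
      linarith
    · have : (i' : ℝ) + 1 ≤ i := by exact_mod_cast h
      rw [abs_of_nonpos (by linarith)]
      linarith
  rcases le_or_gt |u 1| |u 0| with hc | hc
  · -- no row is almost orthogonal to `u`
    have hc0 : 0 < 8 / sz u := by positivity
    refine ⟨fun t => 8 / sz u * t, fun x y hxy => mul_le_mul_of_nonneg_left hxy hc0.le, ?_, ?_⟩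
    · intro i b i' b' hi hb hi' hb'
      have h1 := inner_range (M := M) (by omega) hε (by linarith) u hi hb hi' hb'
      have h2 := mul_le_mul_of_nonneg_left h1 hc0.le
      have h3 : 8 / sz u * (sz u * (2 * M)) = 16 * M := by
        field_simp
        ring
      rw [mul_sub] at h2
      simp only
      linarith
    · intro i i' b hi hi' hb hlt
      have hne' : i ≠ i' := fun e => by
        rw [e] at hlt
        exact lt_irrefl _ hlt
      have h1 := hone i i' hne'
      have hab : sz u / 4 ≤ |u 0 + u 1 * (b / (2 * M))| := by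
        have e2 : |u 1 * (b / (2 * M))| ≤ |u 1| / 2 := by
          rw [abs_mul, abs_of_nonneg (show (0 : ℝ) ≤ b / (2 * M) by positivity)]
          have : (b : ℝ) / (2 * M) ≤ 1 / 2 := by
            rw [div_le_div_iff₀ (by positivity) (by positivity)]
            have : (b : ℝ) ≤ M := by exact_mod_cast hb.le
            linarith
          nlinarith
        have e3 : |u 0| ≤ |u 0 + u 1 * (b / (2 * M))| + |u 1 * (b / (2 * M))| := by
          have := abs_add_le (u 0 + u 1 * (b / (2 * M))) (-(u 1 * (b / (2 * M))))
          rw [abs_neg] at this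
          simpa using this
        unfold sz
        linarith
      have h2 := htau i i' b
      have h3 := hincr i i' b
      set D := (inner ℝ (pt M ε i' b) u : ℝ) - inner ℝ (pt M ε i b) u with hD
      have hDpos : 0 < D := sub_pos.2 hlt
      have h4 : |u 0 + u 1 * (b / (2 * M))| * |(i' : ℝ) - i| ≤ D + |u 1| * ε := by
        rw [← abs_mul]
        have e : (u 0 + u 1 * (b / (2 * M))) * ((i' : ℝ) - i) =
            D - u 1 * (ε ^ (M * b + i' + 1) - ε ^ (M * b + i + 1)) := by linarith
        rw [e]
        refine (abs_sub _ _).trans ?_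
        rw [abs_of_pos hDpos]
        linarith
      have h5 : sz u / 4 * |(i' : ℝ) - i| ≤ D + |u 1| * ε :=
        (mul_le_mul_of_nonneg_right hab (abs_nonneg _)).trans h4
      have h6 : |u 1| * ε ≤ sz u / 8 * |(i' : ℝ) - i| := by
        have e1 : |u 1| ≤ sz u := by
          unfold sz
          linarith
        calc |u 1| * ε ≤ sz u * (1 / 8) := mul_le_mul e1 (by linarith) hε.le hsz.le
          _ = sz u / 8 * 1 := by ring
          _ ≤ _ := mul_le_mul_of_nonneg_left h1 (by positivity)
      have h7 : sz u / 8 * |(i' : ℝ) - i| ≤ D := by linarith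
      have h8 : |(i' : ℝ) - i| ≤ 8 / sz u * D := by
        rw [div_mul_eq_mul_div, le_div_iff₀ hsz]
        linarith
      rw [hD, mul_sub] at h8
      exact h8
  · -- the main case
    have hu1 : u 1 ≠ 0 := by
      intro h
      rw [h, abs_zero] at hc
      linarith
    have hsz2 : sz u ≤ 2 * |u 1| := by
      unfold sz
      linarith
    have hκ : |u 0 / (2 * u 1)| ≤ 1 / 2 := by
      rw [abs_div, abs_mul, abs_of_pos (by norm_num : (0 : ℝ) < 2), div_le_div_iff₀ (by positivity)
        (by norm_num)]
      linarith
    rw [abs_le] at hκ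
    set κ : ℝ := u 0 / (2 * u 1) with hκd
    set c0 : ℝ := 2 * M * u 0 + u 0 ^ 2 / (2 * u 1) with hc0
    have hshift := fun i b => inner_shift M (by omega) ε i b hu1
    rw [← hκd, ← hc0] at hshift
    have hne : ∀ b : ℕ, (u 0 + u 1 * (b / (2 * M)) ≠ 0) ∨ (u 1 * ε ^ (M * b + 1) ≠ 0) := by
      intro b
      right
      exact mul_ne_zero hu1 (by positivity)
    choose Φ hΦ1 hΦ2 hΦ3 using fun b : ℕ => row_pot (M := M) hε hεM1 (hne b)
      (u 0 * (b / (4 * M)) + u 1 * b)
    set s : ℝ := 1 / (16 * M) with hs
    have hs0 : 0 < s := by positivity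
    have hs4 : s ≤ 1 / 4 := by
      rw [hs, div_le_div_iff₀ (by positivity) (by positivity)]
      linarith
    have hcard : ((bad M s u).card : ℝ) ≤ 3 / 2 := by
      refine (card_bad (M := M) (by omega) hs0 hs4 hu).trans ?_
      rw [hs]
      have : 8 * (M : ℝ) * (1 / (16 * M)) = 1 / 2 := by
        field_simp
        norm_num
      linarith
    set δ : ℝ := sz u / 16 with hδ
    have hδ0 : 0 < δ := by positivity
    let Ψ : ℝ → ℝ := fun t => 8 * M * Lg c0 δ t + ∑ b ∈ bad M s u, Φ b t
    have hmono1 : Monotone (Lg c0 δ) := Lg_mono hδ0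
    have hmono2 : Monotone fun t => ∑ b ∈ bad M s u, Φ b t := fun x y hxy =>
      sum_le_sum fun b _ => hΦ1 b hxy
    have hM8 : (0 : ℝ) ≤ 8 * M := by positivity
    have hτ : ∀ i b : ℕ, |u 1 * ε ^ (M * b + i + 1)| ≤ |u 1| * ε := fun i b => by
      rw [abs_mul, abs_of_nonneg (small_pow hε (by linarith) _).1]
      exact mul_le_mul_of_nonneg_left (small_pow hε (by linarith) _).2 a1
    have hτs : |u 1| * ε ≤ s * sz u / 4 := by
      have e1 : |u 1| ≤ sz u := by
        unfold sz
        linarith
      have e2 : ε ≤ s / 4 := by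
        rw [hs, div_div, le_div_iff₀ (by positivity)]
        nlinarith
      calc |u 1| * ε ≤ sz u * (s / 4) := mul_le_mul e1 e2 hε.le hsz.le
        _ = s * sz u / 4 := by ring
    have hssz : s * sz u ≤ sz u / 256 := by
      have : s ≤ 1 / 256 := by
        rw [hs, div_le_div_iff₀ (by positivity) (by positivity)]
        linarith
      nlinarith
    have hpos : ∀ i : ℕ, i < M → (3 / 2 * M : ℝ) ≤ i + 2 * M + κ ∧
        (i : ℝ) + 2 * M + κ ≤ 3 * M - 1 / 2 := by
      intro i hi
      have e1 : (i : ℝ) + 1 ≤ M := by exact_mod_cast hi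
      have e2 : (0 : ℝ) ≤ i := Nat.cast_nonneg i
      constructor <;> linarith [hκ.1, hκ.2]
    refine ⟨Ψ, ?_, ?_, ?_⟩
    · intro x y hxy
      exact add_le_add (mul_le_mul_of_nonneg_left (hmono1 hxy) hM8) (hmono2 hxy)
    · intro i b i' b' hi hb hi' hb'
      have hQ : ∀ i b : ℕ, i < M → b < M → |(inner ℝ (pt M ε i b) u : ℝ) + c0| ≤ 4 * M * sz u := by
        intro i b hi hb
        rw [hshift]
        obtain ⟨p1, p2⟩ := hpos i hi
        have ha : |u 0 + u 1 * (b / (2 * M))| ≤ sz u := by
          refine (abs_add_le _ _).trans ?_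
          rw [abs_mul, abs_of_nonneg (show (0 : ℝ) ≤ b / (2 * M) by positivity)]
          have : (b : ℝ) / (2 * M) ≤ 1 := by
            rw [div_le_one (by positivity)]
            have : (b : ℝ) ≤ M := by exact_mod_cast hb.le
            linarith
          unfold sz
          nlinarith
        refine (abs_add_le _ _).trans ?_
        rw [abs_mul, abs_of_nonneg (show (0 : ℝ) ≤ i + 2 * M + κ by linarith)]
        have h1 : |u 0 + u 1 * (b / (2 * M))| * (i + 2 * M + κ) ≤ sz u * (3 * M) :=
          mul_le_mul ha (by linarith) (by linarith) hsz.le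
        have h2 := hτ i b
        nlinarith
      have hδQ : δ ≤ 4 * M * sz u := by
        rw [hδ]
        nlinarith
      have h1 := Lg_range (c := c0) hδ0 hδQ (hQ i b hi hb) (hQ i' b' hi' hb')
      have h1' : Real.log (4 * M * sz u) - Real.log δ = Real.log (64 * M) := by
        rw [← Real.log_div (by positivity) hδ0.ne']
        congr 1
        rw [hδ]
        field_simp
        norm_num
      rw [h1'] at h1
      have h3 : ∑ b ∈ bad M s u, Φ b (inner ℝ (pt M ε i' b') u) ≤
          ((bad M s u).card : ℝ) * (5 * M) := by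
        rw [← nsmul_eq_mul]
        exact sum_le_card_nsmul _ _ _ fun b _ => (hΦ2 b _).2
      have h4 : 0 ≤ ∑ b1 ∈ bad M s u, Φ b1 (inner ℝ (pt M ε i b) u) :=
        sum_nonneg fun b1 _ => (hΦ2 b1 _).1
      have h6 : ((bad M s u).card : ℝ) * (5 * M) ≤ 3 / 2 * (5 * M) :=
        mul_le_mul_of_nonneg_right hcard (by positivity)
      have h7 := mul_le_mul_of_nonneg_left h1 hM8
      rw [mul_sub] at h7
      simp only [Ψ, BB]
      linarith
    · intro i i' b hi hi' hb hlt
      by_cases hbad : b ∈ bad M s u
      · have h1 := hΦ3 b i i' hi hi' (by rw [← inner_row, ← inner_row]; exact hlt)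
        rw [← inner_row, ← inner_row] at h1
        have h2 : ∑ b' ∈ (bad M s u).erase b, Φ b' (inner ℝ (pt M ε i b) u) ≤
            ∑ b' ∈ (bad M s u).erase b, Φ b' (inner ℝ (pt M ε i' b) u) :=
          sum_le_sum fun b' _ => hΦ1 b' hlt.le
        have h3 := add_sum_erase (bad M s u) (fun b' => Φ b' (inner ℝ (pt M ε i b) u)) hbad
        have h4 := add_sum_erase (bad M s u) (fun b' => Φ b' (inner ℝ (pt M ε i' b) u)) hbad
        have h5 := mul_le_mul_of_nonneg_left (hmono1 hlt.le) hM8
        simp only [Ψ]
        linarith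
      · have hne' : i ≠ i' := fun e => by
          rw [e] at hlt
          exact lt_irrefl _ hlt
        have h1 := hone i i' hne'
        have h2 : s * sz u ≤ |u 0 + u 1 * (b / (2 * M))| := by
          by_contra hcon
          apply hbad
          unfold bad
          exact mem_filter.2 ⟨mem_range.2 hb, not_le.1 hcon⟩
        have h9 := hmono2 hlt.le
        simp only at h9
        obtain ⟨p1, p2⟩ := hpos i hi
        obtain ⟨p3, p4⟩ := hpos i' hi'
        have t1 := hτ i b
        have t2 := hτ i' b
        have t3 := htau i i' b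
        have e1 := hshift i b
        have e2 := hshift i' b
        have e3 := hincr i i' b
        have ssz : s * sz u * (3 / 2 * M) = 3 / 32 * sz u := by
          rw [hs]
          field_simp
          norm_num
        generalize u 0 + u 1 * (b / (2 * M)) = a at *
        generalize (inner ℝ (pt M ε i b) u : ℝ) = q at *
        generalize (inner ℝ (pt M ε i' b) u : ℝ) = q' at *
        generalize u 1 * ε ^ (M * b + i + 1) = τ at *
        generalize u 1 * ε ^ (M * b + i' + 1) = τ' at *
        generalize u 1 * (ε ^ (M * b + i' + 1) - ε ^ (M * b + i + 1)) = τ'' at *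
        generalize |u 1| * ε = η at *
        generalize hσ : s * sz u = σ at *
        rw [abs_le] at t1 t2 t3
        have key : |(i' : ℝ) - i| ≤ 8 * M * (Lg c0 δ q' - Lg c0 δ q) := by
          rcases le_or_gt 0 a with ha | ha
          · rw [abs_of_nonneg ha] at h2
            have hlt' : i < i' := by
              by_contra hcon
              have hcon' : (i' : ℝ) + 1 ≤ i := by
                have : i' + 1 ≤ i := by omega
                exact_mod_cast this
              nlinarith
            have hii : (i : ℝ) + 1 ≤ i' := by exact_mod_cast hlt'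
            have hq : δ ≤ q + c0 := by
              rw [e1, hδ]
              nlinarith
            have g := Lg_pos (c := c0) hδ0 hq hlt
            have hq' : 0 < q' + c0 := by linarith
            have g1 : q' + c0 ≤ a * (3 * M) := by
              rw [e2]
              nlinarith
            have g2 : 3 / 4 * a * (i' - i) ≤ q' - q := by
              rw [e3]
              nlinarith
            rw [abs_of_nonneg (by linarith)]
            have g3 : ((i' : ℝ) - i) ≤ 8 * M * ((q' - q) / (q' + c0)) := by
              rw [mul_div_assoc', le_div_iff₀ hq']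
              have g4 : ((i' : ℝ) - i) * (q' + c0) ≤ (i' - i) * (a * (3 * M)) :=
                mul_le_mul_of_nonneg_left g1 (by linarith)
              have g5 : 4 * M * (3 / 4 * a * (i' - i)) ≤ 4 * M * (q' - q) :=
                mul_le_mul_of_nonneg_left g2 (by linarith)
              nlinarith
            exact g3.trans (mul_le_mul_of_nonneg_left g hM8)
          · rw [abs_of_neg ha] at h2
            have hlt' : i' < i := by
              by_contra hcon
              have hcon' : (i : ℝ) + 1 ≤ i' := by
                have : i + 1 ≤ i' := by omega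
                exact_mod_cast this
              nlinarith
            have hii : (i' : ℝ) + 1 ≤ i := by exact_mod_cast hlt'
            have hq : q' + c0 ≤ -δ := by
              rw [e2, hδ]
              nlinarith
            have g := Lg_neg (c := c0) hδ0 hq hlt
            have hq' : 0 < -(q + c0) := by linarith
            have g1 : -(q + c0) ≤ -a * (3 * M) := by
              rw [e1]
              nlinarith
            have g2 : 3 / 4 * -a * (i - i') ≤ q' - q := by
              rw [e3]
              nlinarith
            rw [abs_of_nonpos (by linarith)]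
            have g3 : -((i' : ℝ) - i) ≤ 8 * M * ((q' - q) / (-(q + c0))) := by
              rw [mul_div_assoc', le_div_iff₀ hq']
              have g4 : -((i' : ℝ) - i) * (-(q + c0)) ≤ -(i' - i) * (-a * (3 * M)) :=
                mul_le_mul_of_nonneg_left g1 (by linarith)
              have g5 : 4 * M * (3 / 4 * -a * (i - i')) ≤ 4 * M * (q' - q) :=
                mul_le_mul_of_nonneg_left g2 (by linarith)
              nlinarith
            exact g3.trans (mul_le_mul_of_nonneg_left g hM8)
        simp only [Ψ]
        linarith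

end Pool.Agent.KS6_54.MP
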