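import Pool.Agent.KS6_54.MP.Main
import Pool.Agent.KS6_54.MP.Dir

/-!
# MP_9c8b61_co: the theorem for one size
-/

set_option autoImplicit false

namespace Pool.Agent.KS6_54.MP

open Finset

/-- no three points are collinear -/
def GenPos (A : Finset E2) : Prop :=
  ∀ a ∈ A, ∀ b ∈ A, ∀ c ∈ A, a ≠ b → a ≠ c → b ≠ c → ¬ Collinear ℝ {a, b, c}

/-- the ratio of the largest and the smallest distance is at most `α √n` -/
def Dense (α : ℝ) (A : Finset E2) : Prop :=
  ∀ a ∈ A, ∀ b ∈ A, ∀ c ∈ A, ∀ d ∈ A, c ≠ d → dist a b ≤ α * √(A.card : ℝ) * dist c d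

theorem px_inj {M i b i' b' : ℕ} (hb : b < M) (hb' : b' < M)
    (h : px M i b = px M i' b') : i = i' ∧ b = b' := by
  have hM : (0 : ℝ) < M := by
    have : 0 < M := by omega
    exact_mod_cast this
  unfold px at h
  rw [div_eq_mul_inv, div_eq_mul_inv] at h
  have h1 : (4 * (M : ℝ)) * i + b = (4 * (M : ℝ)) * i' + b' := by
    have e : (4 * (M : ℝ)) * (4 * (M : ℝ))⁻¹ = 1 := mul_inv_cancel₀ (by positivity)
    linear_combination (4 * (M : ℝ)) * h + (b' - b) * e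
  have h2 : 4 * M * i + b = 4 * M * i' + b' := by exact_mod_cast h1
  have h3 : i = i' := by
    have e1 : (4 * M * i + b) / (4 * M) = i := by
      rw [Nat.mul_add_div (by omega), Nat.div_eq_of_lt (by omega), add_zero]
    have e2 : (4 * M * i' + b') / (4 * M) = i' := by
      rw [Nat.mul_add_div (by omega), Nat.div_eq_of_lt (by omega), add_zero]
    rw [← e1, ← e2, h2]
  refine ⟨h3, ?_⟩
  rw [h3] at h2
  omega

theorem rank_inj {M i b i' b' : ℕ} (hi : i < M) (hi' : i' < M)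
    (h : M * b + i + 1 = M * b' + i' + 1) : i = i' ∧ b = b' := by
  have h1 : M * b + i = M * b' + i' := by omega
  have e1 : (M * b + i) / M = b := by
    rw [Nat.mul_add_div (by omega), Nat.div_eq_of_lt hi, add_zero]
  have e2 : (M * b' + i') / M = b' := by
    rw [Nat.mul_add_div (by omega), Nat.div_eq_of_lt hi', add_zero]
  have h2 : b = b' := by rw [← e1, ← e2, h1]
  refine ⟨?_, h2⟩
  rw [h2] at h1
  omega

/-- the determinant of three points -/
noncomputable def det3 (M : ℕ) (ε : ℝ) (p q r : ℕ × ℕ) : ℝ :=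
  (px M q.1 q.2 - px M p.1 p.2) * (py M ε r.1 r.2 - py M ε p.1 p.2) -
    (px M r.1 r.2 - px M p.1 p.2) * (py M ε q.1 q.2 - py M ε p.1 p.2)

theorem det3_finite {M : ℕ} {p q r : ℕ × ℕ} (hp : p.1 < M ∧ p.2 < M) (hq : q.1 < M ∧ q.2 < M)
    (hr : r.1 < M ∧ r.2 < M) (hpq : p ≠ q) (hpr : p ≠ r) (hqr : q ≠ r) :
    {ε : ℝ | det3 M ε p q r = 0}.Finite := by
  let yc : ℕ × ℕ → ℝ := fun p => p.2 + p.2 * p.1 / (2 * M)
  let rk : ℕ × ℕ → ℕ := fun p => M * p.2 + p.1 + 1
  have hrk : ∀ {p q : ℕ × ℕ}, p.1 < M → q.1 < M → p ≠ q → rk p ≠ rk q := by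
    intro p q h1 h2 h3 h4
    obtain ⟨h5, h6⟩ := rank_inj h1 h2 h4
    exact h3 (Prod.ext h5 h6)
  let P : Polynomial ℝ :=
    Polynomial.C ((px M q.1 q.2 - px M p.1 p.2) * (yc r - yc p) -
      (px M r.1 r.2 - px M p.1 p.2) * (yc q - yc p)) +
    Polynomial.C (px M q.1 q.2 - px M p.1 p.2) *
      (Polynomial.X ^ rk r - Polynomial.X ^ rk p) -
    Polynomial.C (px M r.1 r.2 - px M p.1 p.2) *
      (Polynomial.X ^ rk q - Polynomial.X ^ rk p)
  have heval : ∀ ε, P.eval ε = det3 M ε p q r := by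
    intro ε
    simp only [P, yc, rk, Polynomial.eval_add, Polynomial.eval_sub, Polynomial.eval_mul,
      Polynomial.eval_C, Polynomial.eval_pow, Polynomial.eval_X, det3, py]
    ring
  have hcoeff : P.coeff (rk r) = px M q.1 q.2 - px M p.1 p.2 := by
    have h0 : rk r ≠ 0 := Nat.succ_ne_zero _
    have h1 : rk r ≠ rk p := hrk hr.1 hp.1 (Ne.symm hpr)
    have h2 : rk r ≠ rk q := hrk hr.1 hq.1 (Ne.symm hqr)
    simp only [P, Polynomial.coeff_add, Polynomial.coeff_sub, Polynomial.coeff_C_mul,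
      Polynomial.coeff_C, Polynomial.coeff_X_pow, if_neg h0, if_neg h1, if_neg h2, if_true]
    ring
  have hne : P ≠ 0 := by
    intro h
    rw [h, Polynomial.coeff_zero] at hcoeff
    obtain ⟨h1, h2⟩ := px_inj hq.2 hp.2 (sub_eq_zero.1 hcoeff.symm)
    exact hpq (Prod.ext h1.symm h2.symm)
  refine (P.roots.toFinset.finite_toSet).subset ?_
  intro ε hε
  rw [mem_coe, Multiset.mem_toFinset, Polynomial.mem_roots hne, Polynomial.IsRoot, heval]
  exact hε

/-- a good parameter -/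
theorem exists_eps {M : ℕ} (hM : 1 ≤ M) : ∃ ε : ℝ, 0 < ε ∧ ε * (64 * (M + 1)) ≤ 1 ∧
    ∀ p ∈ range M ×ˢ range M, ∀ q ∈ range M ×ˢ range M, ∀ r ∈ range M ×ˢ range M,
      p ≠ q → p ≠ r → q ≠ r → det3 M ε p q r ≠ 0 := by
  classical
  set I := range M ×ˢ range M with hI
  let J := (I ×ˢ (I ×ˢ I)).filter fun x => x.1 ≠ x.2.1 ∧ x.1 ≠ x.2.2 ∧ x.2.1 ≠ x.2.2
  have hmem : ∀ p ∈ I, p.1 < M ∧ p.2 < M := fun p hp => by
    rw [hI, mem_product, mem_range, mem_range] at hp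
    exact hp
  have hfin : (⋃ x ∈ J, {ε : ℝ | det3 M ε x.1 x.2.1 x.2.2 = 0}).Finite := by
    apply J.finite_toSet.biUnion
    intro x hx
    obtain ⟨h1, h2⟩ := mem_filter.1 (mem_coe.1 hx)
    obtain ⟨h3, h4⟩ := mem_product.1 h1
    obtain ⟨h5, h6⟩ := mem_product.1 h4
    exact det3_finite (hmem _ h3) (hmem _ h5) (hmem _ h6) h2.1 h2.2.1 h2.2.2
  have hpos : (0 : ℝ) < 1 / (64 * (M + 1)) := by positivity
  obtain ⟨ε, hε, hnot⟩ := (Set.Ioo_infinite hpos).exists_notMem_finset hfin.toFinset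
  rw [Set.Finite.mem_toFinset] at hnot
  refine ⟨ε, hε.1, ?_, ?_⟩
  · have := hε.2.le
    rwa [le_div_iff₀ (by positivity)] at this
  · intro p hp q hq r hr hpq hpr hqr h
    apply hnot
    rw [Set.mem_iUnion₂]
    exact ⟨(p, q, r), mem_filter.2 ⟨mem_product.2 ⟨hp, mem_product.2 ⟨hq, hr⟩⟩, hpq, hpr, hqr⟩,
      h⟩

theorem det3_of_collinear {M : ℕ} {ε : ℝ} {p q r : ℕ × ℕ}
    (h : Collinear ℝ {pt M ε p.1 p.2, pt M ε q.1 q.2, pt M ε r.1 r.2}) :
    det3 M ε p q r = 0 := by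
  rw [collinear_iff_of_mem (p₀ := pt M ε p.1 p.2) (by simp)] at h
  obtain ⟨v, hv⟩ := h
  obtain ⟨a, ha⟩ := hv (pt M ε q.1 q.2) (by simp)
  obtain ⟨b, hb⟩ := hv (pt M ε r.1 r.2) (by simp)
  have a0 : px M q.1 q.2 = a * v 0 + px M p.1 p.2 := by
    have := congrArg (fun z : E2 => z 0) ha
    simpa [pt] using this
  have a1 : py M ε q.1 q.2 = a * v 1 + py M ε p.1 p.2 := by
    have := congrArg (fun z : E2 => z 1) ha
    simpa [pt] using this
  have b0 : px M r.1 r.2 = b * v 0 + px M p.1 p.2 := by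
    have := congrArg (fun z : E2 => z 0) hb
    simpa [pt] using this
  have b1 : py M ε r.1 r.2 = b * v 1 + py M ε p.1 p.2 := by
    have := congrArg (fun z : E2 => z 1) hb
    simpa [pt] using this
  unfold det3
  rw [a0, a1, b0, b1]
  ring

theorem coord_le_dist (a b : E2) (i : Fin 2) : |a i - b i| ≤ dist a b := by
  rw [dist_eq_norm]
  have := PiLp.norm_apply_le (a - b) i
  simpa using this

theorem dist_le_coords (a b : E2) : dist a b ≤ |a 0 - b 0| + |a 1 - b 1| := by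
  rw [EuclideanSpace.dist_eq, Fin.sum_univ_two]
  rw [Real.dist_eq, Real.dist_eq]
  have h0 := abs_nonneg (a 0 - b 0)
  have h1 := abs_nonneg (a 1 - b 1)
  rw [Real.sqrt_le_left (by positivity)]
  nlinarith

theorem le_dist_pt {M : ℕ} (hM : 1 ≤ M) {ε : ℝ} (hε : 0 < ε) (hε1 : ε ≤ 1 / 4) {p q : ℕ × ℕ}
    (hp : p.1 < M ∧ p.2 < M) (hq : q.1 < M ∧ q.2 < M) (hpq : p ≠ q) :
    1 / 2 ≤ dist (pt M ε p.1 p.2) (pt M ε q.1 q.2) := by
  have hMR : (1 : ℝ) ≤ M := by exact_mod_cast hM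
  by_cases h : p.1 = q.1
  · have h2 : p.2 ≠ q.2 := fun e => hpq (Prod.ext h e)
    refine le_trans ?_ (coord_le_dist _ _ 1)
    have e1 : (pt M ε p.1 p.2) 1 - (pt M ε q.1 q.2) 1 =
        ((p.2 : ℝ) - q.2) * (1 + p.1 / (2 * M)) +
          (ε ^ (M * p.2 + p.1 + 1) - ε ^ (M * q.2 + q.1 + 1)) := by
      simp only [pt, py, h]
      simp
      ring
    have e2 : 1 ≤ |(p.2 : ℝ) - q.2| := by
      rcases Nat.lt_or_gt_of_ne h2 with h3 | h3
      · have : (p.2 : ℝ) + 1 ≤ q.2 := by exact_mod_cast h3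
        rw [abs_of_nonpos (by linarith)]
        linarith
      · have : (q.2 : ℝ) + 1 ≤ p.2 := by exact_mod_cast h3
        rw [abs_of_nonneg (by linarith)]
        linarith
    have e3 : 1 ≤ |((p.2 : ℝ) - q.2) * (1 + p.1 / (2 * M))| := by
      have e4 : (1 : ℝ) ≤ 1 + p.1 / (2 * M) := by
        have : (0 : ℝ) ≤ p.1 / (2 * M) := by positivity
        linarith
      rw [abs_mul, abs_of_nonneg (by linarith : (0 : ℝ) ≤ 1 + p.1 / (2 * M))]
      nlinarith
    have hpow : ∀ k : ℕ, 0 ≤ ε ^ (k + 1) ∧ ε ^ (k + 1) ≤ 1 / 4 := fun k => by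
      refine ⟨by positivity, ?_⟩
      calc ε ^ (k + 1) ≤ ε ^ 1 := pow_le_pow_of_le_one hε.le (by linarith) (by omega)
        _ ≤ 1 / 4 := by rw [pow_one]; exact hε1
    have e5 : |ε ^ (M * p.2 + p.1 + 1) - ε ^ (M * q.2 + q.1 + 1)| ≤ 1 / 4 := by
      have := hpow (M * p.2 + p.1)
      have := hpow (M * q.2 + q.1)
      rw [abs_le]
      constructor <;> linarith
    rw [e1]
    have e6 := abs_add_le (((p.2 : ℝ) - q.2) * (1 + p.1 / (2 * M)) +
      (ε ^ (M * p.2 + p.1 + 1) - ε ^ (M * q.2 + q.1 + 1)))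
      (-(ε ^ (M * p.2 + p.1 + 1) - ε ^ (M * q.2 + q.1 + 1)))
    rw [abs_neg, add_neg_cancel_right] at e6
    linarith
  · refine le_trans ?_ (coord_le_dist _ _ 0)
    have e1 : (pt M ε p.1 p.2) 0 - (pt M ε q.1 q.2) 0 =
        ((p.1 : ℝ) - q.1) + (p.2 / (4 * M) - q.2 / (4 * M)) := by
      simp only [pt, px]
      simp
      ring
    have e2 : 1 ≤ |(p.1 : ℝ) - q.1| := by
      rcases Nat.lt_or_gt_of_ne h with h3 | h3
      · have : (p.1 : ℝ) + 1 ≤ q.1 := by exact_mod_cast h3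
        rw [abs_of_nonpos (by linarith)]
        linarith
      · have : (q.1 : ℝ) + 1 ≤ p.1 := by exact_mod_cast h3
        rw [abs_of_nonneg (by linarith)]
        linarith
    have e3 : ∀ b : ℕ, b < M → 0 ≤ (b : ℝ) / (4 * M) ∧ (b : ℝ) / (4 * M) ≤ 1 / 4 := by
      intro b hb
      have : (b : ℝ) ≤ M := by exact_mod_cast hb.le
      refine ⟨by positivity, ?_⟩
      rw [div_le_div_iff₀ (by positivity) (by positivity)]
      linarith
    have e5 : |(p.2 : ℝ) / (4 * M) - q.2 / (4 * M)| ≤ 1 / 4 := by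
      have := e3 p.2 hp.2
      have := e3 q.2 hq.2
      rw [abs_le]
      constructor <;> linarith
    rw [e1]
    have e6 := abs_add_le (((p.1 : ℝ) - q.1) + (p.2 / (4 * M) - q.2 / (4 * M)))
      (-((p.2 : ℝ) / (4 * M) - q.2 / (4 * M)))
    rw [abs_neg, add_neg_cancel_right] at e6
    linarith

theorem coords_bound {M : ℕ} (hM : 2 ≤ M) {ε : ℝ} (hε : 0 < ε) (hε1 : ε ≤ 1 / 4) {i b : ℕ}
    (hi : i < M) (hb : b < M) :
    (0 ≤ px M i b ∧ px M i b ≤ 2 * M) ∧ (0 ≤ py M ε i b ∧ py M ε i b ≤ 2 * M) := by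
  have hMR : (2 : ℝ) ≤ M := by exact_mod_cast hM
  have hpow : ∀ k : ℕ, 0 ≤ ε ^ (k + 1) ∧ ε ^ (k + 1) ≤ 1 / 4 := fun k => by
    refine ⟨by positivity, ?_⟩
    calc ε ^ (k + 1) ≤ ε ^ 1 := pow_le_pow_of_le_one hε.le (by linarith) (by omega)
      _ ≤ 1 / 4 := by rw [pow_one]; exact hε1
  constructor
  · have e1 : (i : ℝ) + 1 ≤ M := by exact_mod_cast hi
    have e2 : (b : ℝ) ≤ M := by exact_mod_cast hb.le
    have e3 : (b : ℝ) / (4 * M) ≤ 1 := by
      rw [div_le_one (by positivity)]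
      linarith
    unfold px
    constructor
    · positivity
    · linarith
  · have e1 : (i : ℝ) ≤ M := by exact_mod_cast hi.le
    have e2 : (b : ℝ) + 1 ≤ M := by exact_mod_cast hb
    have e0 : (0 : ℝ) ≤ b := Nat.cast_nonneg b
    have e3 : (b : ℝ) * i / (2 * M) ≤ b / 2 := by
      rw [div_le_div_iff₀ (by positivity) (by positivity)]
      nlinarith
    have := hpow (M * b + i)
    unfold py
    constructor
    · have := this.1
      positivity
    · linarith [this.2]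

theorem dist_pt_le {M : ℕ} (hM : 2 ≤ M) {ε : ℝ} (hε : 0 < ε) (hε1 : ε ≤ 1 / 4) {p q : ℕ × ℕ}
    (hp : p.1 < M ∧ p.2 < M) (hq : q.1 < M ∧ q.2 < M) :
    dist (pt M ε p.1 p.2) (pt M ε q.1 q.2) ≤ 4 * M := by
  refine (dist_le_coords _ _).trans ?_
  obtain ⟨⟨a1, a2⟩, a3, a4⟩ := coords_bound hM hε hε1 hp.1 hp.2
  obtain ⟨⟨b1, b2⟩, b3, b4⟩ := coords_bound hM hε hε1 hq.1 hq.2
  have e1 : |(pt M ε p.1 p.2) 0 - (pt M ε q.1 q.2) 0| ≤ 2 * M := by
    change |px M p.1 p.2 - px M q.1 q.2| ≤ 2 * M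
    rw [abs_le]
    constructor <;> linarith
  have e2 : |(pt M ε p.1 p.2) 1 - (pt M ε q.1 q.2) 1| ≤ 2 * M := by
    change |py M ε p.1 p.2 - py M ε q.1 q.2| ≤ 2 * M
    rw [abs_le]
    constructor <;> linarith
  linarith

/-- the theorem for one size -/
theorem exists_set {M n : ℕ} (hM16 : 16 ≤ M)
    (hn1 : (M - 1) * (M - 1) ≤ n) (hn2 : n ≤ M * M) :
    ∃ A : Finset E2, A.card = n ∧ GenPos A ∧ Dense 16 A ∧
      3 * (((M - 1) / 3 : ℕ) : ℝ) ^ 4 ≤ mc A * (2 * BB M) := by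
  classical
  obtain ⟨ε, hε, hεM, hdet⟩ := exists_eps (M := M) (by omega)
  have hMR : (16 : ℝ) ≤ M := by exact_mod_cast hM16
  have hε1 : ε ≤ 1 / 4 := by nlinarith
  set I := range M ×ˢ range M with hI
  have hmem : ∀ p ∈ I, p.1 < M ∧ p.2 < M := fun p hp => by
    rw [hI, mem_product, mem_range, mem_range] at hp
    exact hp
  let P : ℕ × ℕ → E2 := fun p => pt M ε p.1 p.2
  have hPinj : ∀ p ∈ I, ∀ q ∈ I, P p = P q → p = q := by
    intro p hp q hq h
    have h0 : px M p.1 p.2 = px M q.1 q.2 := congrArg (fun z : E2 => z 0) h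
    obtain ⟨h1, h2⟩ := px_inj (hmem p hp).2 (hmem q hq).2 h0
    exact Prod.ext h1 h2
  have hcI : I.card = M * M := by rw [hI, card_product, card_range]
  obtain ⟨T, hT1, hT2, hTc⟩ := exists_subsuperset_card_eq
    (s := range (M - 1) ×ˢ range (M - 1)) (t := I) (n := n)
    (product_subset_product (range_subset_range.2 (by omega)) (range_subset_range.2 (by omega)))
    (by rw [card_product, card_range]; exact hn1) (by rw [hcI]; exact hn2)
  have hPT : Set.InjOn P T := fun p hp q hq h => hPinj p (hT2 hp) q (hT2 hq) h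
  have hAmem : ∀ v ∈ T.image P, ∃ p ∈ T, P p = v := fun v hv => mem_image.1 hv
  have hcard : (T.image P).card = n := by rw [card_image_of_injOn hPT, hTc]
  refine ⟨T.image P, hcard, ?_, ?_, ?_⟩
  · intro a ha b hb c hc hab hac hbc hcol
    obtain ⟨p, hp, rfl⟩ := hAmem a ha
    obtain ⟨q, hq, rfl⟩ := hAmem b hb
    obtain ⟨r, hr, rfl⟩ := hAmem c hc
    exact hdet p (hT2 hp) q (hT2 hq) r (hT2 hr) (fun e => hab (by rw [e]))
      (fun e => hac (by rw [e])) (fun e => hbc (by rw [e])) (det3_of_collinear hcol)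
  · intro a ha b hb c hc d hd hcd
    obtain ⟨p, hp, rfl⟩ := hAmem a ha
    obtain ⟨q, hq, rfl⟩ := hAmem b hb
    obtain ⟨r, hr, rfl⟩ := hAmem c hc
    obtain ⟨s, hs, rfl⟩ := hAmem d hd
    have h1 : dist (P p) (P q) ≤ 4 * M :=
      dist_pt_le (by omega) hε hε1 (hmem p (hT2 hp)) (hmem q (hT2 hq))
    have h2 : 1 / 2 ≤ dist (P r) (P s) :=
      le_dist_pt (by omega) hε hε1 (hmem r (hT2 hr)) (hmem s (hT2 hs))
        (fun e => hcd (by rw [e]))
    have h3 : (M : ℝ) / 2 ≤ √((T.image P).card : ℝ) := by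
      rw [hcard]
      apply Real.le_sqrt_of_sq_le
      have e1 : ((M : ℝ) - 1) * ((M : ℝ) - 1) ≤ n := by
        have : (((M - 1) * (M - 1) : ℕ) : ℝ) ≤ n := by exact_mod_cast hn1
        rw [Nat.cast_mul, Nat.cast_sub (by omega), Nat.cast_one] at this
        exact this
      nlinarith
    calc dist (P p) (P q) ≤ 4 * M := h1
      _ = 16 * (M / 2) * (1 / 2) := by ring
      _ ≤ 16 * √((T.image P).card : ℝ) * dist (P r) (P s) := by
          apply mul_le_mul _ h2 (by norm_num) (by positivity)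
          linarith
  · -- the lower bound
    obtain ⟨ι, hι⟩ : ∃ ι : E2 → ℕ × ℕ, ∀ p ∈ I, ι (P p) = p := by
      refine ⟨Function.invFunOn P (I : Set (ℕ × ℕ)), ?_⟩
      intro p hp
      have h1 : ∃ a ∈ (I : Set (ℕ × ℕ)), P a = P p := ⟨p, hp, rfl⟩
      exact hPinj _ (Function.invFunOn_mem h1) _ hp (Function.invFunOn_eq h1)
    let w : E2 → E2 → ℝ := fun v v' =>
      if (ι v).2 = (ι v').2 then |((ι v').1 : ℝ) - (ι v).1| else 0
    have hw0 : ∀ v v', 0 ≤ w v v' := fun v v' => by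
      simp only [w]
      split_ifs
      · exact abs_nonneg _
      · exact le_rfl
    have hws : ∀ v v', w v v' = w v' v := fun v v' => by
      simp only [w]
      by_cases h : (ι v).2 = (ι v').2
      · rw [if_pos h, if_pos h.symm, abs_sub_comm]
      · rw [if_neg h, if_neg (fun e => h e.symm)]
    set B : ℝ := BB M with hB
    have hB0 : 0 ≤ B := by
      rw [hB, BB]
      have := Real.log_nonneg (show (1 : ℝ) ≤ 64 * M by linarith)
      positivity
    obtain ⟨k, hk⟩ : ∃ k, k = mc (T.image P) := ⟨_, rfl⟩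
    have hne : {k : ℕ | ∃ ξ : Fin k → List E2, Cover (T.image P) ξ}.Nonempty := by
      obtain ⟨k, ξ, h⟩ := exists_cover (T.image P)
      exact ⟨k, ξ, h⟩
    obtain ⟨ξ, hξ⟩ := Nat.sInf_mem hne
    have hsteps : ∀ i, steps w (ξ i) ≤ B := by
      intro i
      obtain ⟨hl, u, hu, hc⟩ := hξ.1 i
      obtain ⟨Ψ, hΨ1, hΨ2, hΨ3⟩ := dir_pot hM16 hε hεM hu
      refine steps_le (A := T.image P) (u := u) (Ψ := Ψ) hB0 ?_ ?_ hl hc
      · intro v hv v' hv'
        obtain ⟨p, hp, rfl⟩ := hAmem v hv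
        obtain ⟨q, hq, rfl⟩ := hAmem v' hv'
        obtain ⟨p1, p2⟩ := hmem p (hT2 hp)
        obtain ⟨q1, q2⟩ := hmem q (hT2 hq)
        exact hΨ2 p.1 p.2 q.1 q.2 p1 p2 q1 q2
      · intro v hv v' hv' hlt
        obtain ⟨p, hp, rfl⟩ := hAmem v hv
        obtain ⟨q, hq, rfl⟩ := hAmem v' hv'
        obtain ⟨p1, p2⟩ := hmem p (hT2 hp)
        obtain ⟨q1, q2⟩ := hmem q (hT2 hq)
        simp only [w]
        rw [hι p (hT2 hp), hι q (hT2 hq)]
        split_ifs with h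
        · have h3 := hΨ3 p.1 q.1 p.2 p1 q1 p2
          have e1 : P q = pt M ε q.1 p.2 := by
            simp only [P, h]
          rw [e1] at hlt ⊢
          exact h3 hlt
        · have := hΨ1 hlt.le
          linarith
    -- the edges
    set t := (M - 1) / 3 with ht
    let J := range (3 * t) ×ˢ (range t ×ˢ Ico (2 * t) (3 * t))
    let G : ℕ × ℕ × ℕ → E2 × E2 := fun x => (P (x.2.1, x.1), P (x.2.2, x.1))
    have hJ : ∀ x ∈ J, (x.2.1, x.1) ∈ T ∧ (x.2.2, x.1) ∈ T ∧ x.2.1 + t < x.2.2 + 1 ∧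
        x.2.1 < x.2.2 := by
      intro x hx
      rw [mem_product, mem_product, mem_range, mem_range, mem_Ico] at hx
      refine ⟨hT1 (mem_product.2 ⟨mem_range.2 ?_, mem_range.2 ?_⟩),
        hT1 (mem_product.2 ⟨mem_range.2 ?_, mem_range.2 ?_⟩), ?_, ?_⟩
      all_goals omega
    have hGinj : Set.InjOn G J := by
      intro x hx y hy hxy
      have h1 := hPinj _ (hT2 (hJ x hx).1) _ (hT2 (hJ y hy).1) (congrArg Prod.fst hxy)
      have h2 := hPinj _ (hT2 (hJ x hx).2.1) _ (hT2 (hJ y hy).2.1) (congrArg Prod.snd hxy)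
      rw [Prod.mk.injEq] at h1 h2
      exact Prod.ext h1.2 (Prod.ext h1.1 h2.1)
    have hsum := sum_le_steps hξ hw0 hws hsteps (J.image G) (by
      intro e he
      obtain ⟨x, hx, rfl⟩ := mem_image.1 he
      obtain ⟨h1, h2, _, h3⟩ := hJ x hx
      refine ⟨mem_image_of_mem _ h1, mem_image_of_mem _ h2, ?_⟩
      intro h
      have h4 := hPinj _ (hT2 h1) _ (hT2 h2) h
      rw [Prod.mk.injEq] at h4
      omega)
    rw [sum_image (fun x hx y hy h => hGinj hx hy h)] at hsum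
    have hlow : (J.card : ℝ) * t ≤ ∑ x ∈ J, w (G x).1 (G x).2 := by
      rw [← nsmul_eq_mul]
      apply card_nsmul_le_sum
      intro x hx
      obtain ⟨h1, h2, h3, h4⟩ := hJ x hx
      have e1 : w (G x).1 (G x).2 = |(x.2.2 : ℝ) - x.2.1| := by
        simp only [w, G]
        rw [hι _ (hT2 h1), hι _ (hT2 h2)]
        rw [if_pos rfl]
      rw [e1]
      have e2 : (x.2.1 : ℝ) + t ≤ x.2.2 := by
        have : x.2.1 + t ≤ x.2.2 := by omega
        exact_mod_cast this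
      exact le_trans (by linarith) (le_abs_self _)
    have hJc : J.card = 3 * t * (t * t) := by
      simp only [J]
      rw [card_product, card_product, card_range, card_range, Nat.card_Ico]
      congr 2
      omega
    rw [hJc] at hlow
    push_cast at hlow
    calc 3 * (t : ℝ) ^ 4 = 3 * t * (t * t) * t := by ring
      _ ≤ ∑ x ∈ J, w (G x).1 (G x).2 := hlow
      _ ≤ _ := hsum

end Pool.Agent.KS6_54.MP
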