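import Pool.Agent.KS6_54.MP.Pot

/-!
# MP_9c8b61_co: the point set and its potentials
-/

set_option autoImplicit false

namespace Pool.Agent.KS6_54.MP

open Finset

/-- the Euclidean plane -/
abbrev E2 := EuclideanSpace ℝ (Fin 2)

/-- first coordinate -/
noncomputable def px (M i b : ℕ) : ℝ := i + b / (4 * M)

/-- second coordinate -/
noncomputable def py (M : ℕ) (ε : ℝ) (i b : ℕ) : ℝ :=
  b + b * i / (2 * M) + ε ^ (M * b + i + 1)

/-- the point number `i` of the row `b` -/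
noncomputable def pt (M : ℕ) (ε : ℝ) (i b : ℕ) : E2 := !₂[px M i b, py M ε i b]

theorem inner_pt (M : ℕ) (ε : ℝ) (i b : ℕ) (u : E2) :
    (inner ℝ (pt M ε i b) u : ℝ) = u 0 * px M i b + u 1 * py M ε i b := by
  simp [PiLp.inner_apply, Fin.sum_univ_two, pt]

/-- the linear form along a row -/
theorem inner_row (M : ℕ) (ε : ℝ) (i b : ℕ) (u : E2) :
    (inner ℝ (pt M ε i b) u : ℝ) = (u 0 * (b / (4 * M)) + u 1 * b) +
      ((u 0 + u 1 * (b / (2 * M))) * i + (u 1 * ε ^ (M * b + 1)) * ε ^ i) := by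
  rw [inner_pt, px, py]
  have : ε ^ (M * b + i + 1) = ε ^ (M * b + 1) * ε ^ i := by ring
  rw [this]
  ring

/-- the size of a direction -/
noncomputable def sz (u : E2) : ℝ := |u 0| + |u 1|

theorem sz_pos {u : E2} (hu : u ≠ 0) : 0 < sz u := by
  by_contra h
  apply hu
  have h1 : 0 ≤ |u 0| := abs_nonneg _
  have h2 : 0 ≤ |u 1| := abs_nonneg _
  unfold sz at h
  have h3 : u 0 = 0 := abs_eq_zero.1 (by linarith)
  have h4 : u 1 = 0 := abs_eq_zero.1 (by linarith)
  ext i
  fin_cases i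
  · exact h3
  · exact h4

/-- the rows which are almost orthogonal to `u` -/
noncomputable def bad (M : ℕ) (s : ℝ) (u : E2) : Finset ℕ :=
  (range M).filter fun b => |u 0 + u 1 * (b / (2 * M))| < s * sz u

theorem card_bad {M : ℕ} (hM : 1 ≤ M) {s : ℝ} (hs : 0 < s) (hs4 : s ≤ 1 / 4) {u : E2}
    (hu : u ≠ 0) : ((bad M s u).card : ℝ) ≤ 8 * M * s + 1 := by
  have hMR : (0 : ℝ) < M := by exact_mod_cast hM
  rcases (bad M s u).eq_empty_or_nonempty with h | h
  · rw [h, card_empty, Nat.cast_zero]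
    positivity
  set m := (bad M s u).min' h with hm
  set m' := (bad M s u).max' h with hm'
  have h1 : m ∈ bad M s u := min'_mem _ _
  have h2 : m' ∈ bad M s u := max'_mem _ _
  have hle : m ≤ m' := min'_le _ _ h2
  have hcard : (bad M s u).card ≤ m' - m + 1 := by
    have : bad M s u ⊆ Icc m m' := fun x hx => mem_Icc.2 ⟨min'_le _ _ hx, le_max' _ _ hx⟩
    refine (card_le_card this).trans ?_
    rw [Nat.card_Icc]
    omega
  have hcard' : ((bad M s u).card : ℝ) ≤ (m' : ℝ) - m + 1 := by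
    have : ((bad M s u).card : ℝ) ≤ ((m' - m + 1 : ℕ) : ℝ) := by exact_mod_cast hcard
    rw [Nat.cast_add, Nat.cast_sub hle, Nat.cast_one] at this
    exact this
  unfold bad at h1 h2
  rw [mem_filter, mem_range] at h1 h2
  have hsz := sz_pos hu
  have hpos := abs_nonneg (u 0)
  have hpos' := abs_nonneg (u 1)
  -- the first coordinate is smaller
  have hlt : |u 0| < |u 1| := by
    by_contra hcon
    push Not at hcon
    have e1 : |u 0| - |u 1| / 2 ≤ |u 0 + u 1 * (m / (2 * M))| := by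
      have e2 : |u 1 * (m / (2 * M))| ≤ |u 1| / 2 := by
        rw [abs_mul, abs_of_nonneg (show (0 : ℝ) ≤ m / (2 * M) by positivity)]
        have : (m : ℝ) / (2 * M) ≤ 1 / 2 := by
          rw [div_le_div_iff₀ (by positivity) (by positivity)]
          have : (m : ℝ) ≤ M := by exact_mod_cast h1.1.le
          linarith
        nlinarith
      have e3 : |u 0| ≤ |u 0 + u 1 * (m / (2 * M))| + |u 1 * (m / (2 * M))| := by
        have := abs_add_le (u 0 + u 1 * (m / (2 * M))) (-(u 1 * (m / (2 * M))))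
        rw [abs_neg] at this
        simpa using this
      linarith
    have e4 : s * sz u ≤ sz u / 4 := by nlinarith
    unfold sz at e4 h1
    linarith [h1.2]
  have h3 : |u 1 * (((m' : ℝ) - m) / (2 * M))| < 2 * (s * sz u) := by
    have e1 : u 1 * (((m' : ℝ) - m) / (2 * M)) =
        (u 0 + u 1 * (m' / (2 * M))) - (u 0 + u 1 * (m / (2 * M))) := by ring
    rw [e1]
    calc _ ≤ |u 0 + u 1 * (m' / (2 * M))| + |u 0 + u 1 * (m / (2 * M))| := abs_sub _ _
      _ < _ := by linarith [h1.2, h2.2]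
  rw [abs_mul, abs_of_nonneg (show (0 : ℝ) ≤ ((m' : ℝ) - m) / (2 * M) by
    have : (m : ℝ) ≤ m' := by exact_mod_cast hle
    apply div_nonneg <;> linarith)] at h3
  have h4 : sz u ≤ 2 * |u 1| := by
    unfold sz
    linarith
  have hu1 : 0 < |u 1| := lt_of_le_of_lt hpos hlt
  have h5 : |u 1| * (((m' : ℝ) - m) / (2 * M)) < |u 1| * (4 * s) := by
    nlinarith
  have h6 : ((m' : ℝ) - m) / (2 * M) < 4 * s := lt_of_mul_lt_mul_left h5 hu1.le
  rw [div_lt_iff₀ (by positivity)] at h6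
  linarith

/-- the range of the linear form -/
theorem inner_range {M : ℕ} (hM : 2 ≤ M) {ε : ℝ} (hε : 0 < ε) (hε1 : ε ≤ 1 / 4) (u : E2)
    {i b i' b' : ℕ} (hi : i < M) (hb : b < M) (hi' : i' < M) (hb' : b' < M) :
    (inner ℝ (pt M ε i' b') u : ℝ) - inner ℝ (pt M ε i b) u ≤ sz u * (2 * M) := by
  have hMR : (2 : ℝ) ≤ M := by exact_mod_cast hM
  have hpow : ∀ k : ℕ, 0 ≤ ε ^ (k + 1) ∧ ε ^ (k + 1) ≤ 1 / 4 := fun k => by
    refine ⟨by positivity, ?_⟩
    calc ε ^ (k + 1) ≤ ε ^ 1 := pow_le_pow_of_le_one hε.le (by linarith) (by omega)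
      _ ≤ 1 / 4 := by rw [pow_one]; exact hε1
  have hxb : ∀ i b : ℕ, i < M → b < M → 0 ≤ px M i b ∧ px M i b ≤ 2 * M := by
    intro i b hi hb
    have e1 : (i : ℝ) + 1 ≤ M := by exact_mod_cast hi
    have e2 : (b : ℝ) ≤ M := by exact_mod_cast hb.le
    have e3 : (b : ℝ) / (4 * M) ≤ 1 := by
      rw [div_le_one (by positivity)]
      linarith
    unfold px
    constructor
    · positivity
    · linarith
  have hyb : ∀ i b : ℕ, i < M → b < M → 0 ≤ py M ε i b ∧ py M ε i b ≤ 2 * M := by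
    intro i b hi hb
    have e1 : (i : ℝ) ≤ M := by exact_mod_cast hi.le
    have e2 : (b : ℝ) + 1 ≤ M := by exact_mod_cast hb
    have e0 : (0 : ℝ) ≤ b := Nat.cast_nonneg b
    have e3 : (b : ℝ) * i / (2 * M) ≤ b / 2 := by
      rw [div_le_div_iff₀ (by positivity) (by positivity)]
      nlinarith
    have := hpow (M * b + i)
    unfold py
    constructor
    · have := this.1
      positivity
    · linarith [this.2]
  rw [inner_pt, inner_pt]
  obtain ⟨x1, x2⟩ := hxb i b hi hb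
  obtain ⟨x3, x4⟩ := hxb i' b' hi' hb'
  obtain ⟨y1, y2⟩ := hyb i b hi hb
  obtain ⟨y3, y4⟩ := hyb i' b' hi' hb'
  have e1 : u 0 * (px M i' b' - px M i b) ≤ |u 0| * (2 * M) := by
    calc u 0 * (px M i' b' - px M i b) ≤ |u 0 * (px M i' b' - px M i b)| := le_abs_self _
      _ = |u 0| * |px M i' b' - px M i b| := abs_mul _ _
      _ ≤ |u 0| * (2 * M) := mul_le_mul_of_nonneg_left
          (abs_le.2 ⟨by linarith, by linarith⟩) (abs_nonneg _)
  have e2 : u 1 * (py M ε i' b' - py M ε i b) ≤ |u 1| * (2 * M) := by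
    calc u 1 * (py M ε i' b' - py M ε i b) ≤ |u 1 * (py M ε i' b' - py M ε i b)| := le_abs_self _
      _ = |u 1| * |py M ε i' b' - py M ε i b| := abs_mul _ _
      _ ≤ |u 1| * (2 * M) := mul_le_mul_of_nonneg_left
          (abs_le.2 ⟨by linarith, by linarith⟩) (abs_nonneg _)
  unfold sz
  linarith

end Pool.Agent.KS6_54.MP
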