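import Pool.Agent.KS6_54.MP.Grid

/-!
# MP_9c8b61_co: monotone paths
-/

set_option autoImplicit false

namespace Pool.Agent.KS6_54.MP

open Finset

/-- a monotone path with vertices in `A`, given by the list of its vertices -/
def MonotonePath (A : Finset E2) (l : List E2) : Prop :=
  (∀ v ∈ l, v ∈ A) ∧ ∃ u : E2, u ≠ 0 ∧ l.IsChain fun v w => (0 : ℝ) < inner ℝ (w - v) u

/-- `a` and `b` are consecutive vertices of the path, in this order -/
def Consec (l : List E2) (a b : E2) : Prop := ∃ s t, l = s ++ a :: b :: t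

/-- a family of `k` monotone paths which covers the edges of the complete geometric graph -/
def Cover (A : Finset E2) {k : ℕ} (ξ : Fin k → List E2) : Prop :=
  (∀ i, MonotonePath A (ξ i)) ∧
    ∀ a ∈ A, ∀ b ∈ A, a ≠ b → ∃ i, Consec (ξ i) a b ∨ Consec (ξ i) b a

/-- the least size of a family of monotone paths which covers the complete geometric graph -/
noncomputable def mc (A : Finset E2) : ℕ := sInf {k : ℕ | ∃ ξ : Fin k → List E2, Cover A ξ}

theorem exists_cover (A : Finset E2) : ∃ (k : ℕ) (ξ : Fin k → List E2), Cover A ξ := by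
  classical
  refine ⟨Fintype.card (↥A × ↥A), fun i =>
    let p := (Fintype.equivFin (↥A × ↥A)).symm i
    if p.1 = p.2 then [] else [p.1.1, p.2.1], ?_, ?_⟩
  · intro i
    set p := (Fintype.equivFin (↥A × ↥A)).symm i with hp
    by_cases h : p.1 = p.2
    · simp only [← hp, if_pos h]
      refine ⟨by simp, EuclideanSpace.single 0 1, by simp, List.isChain_nil⟩
    · simp only [← hp, if_neg h]
      refine ⟨?_, p.2.1 - p.1.1, ?_, ?_⟩
      · intro v hv
        rw [List.mem_cons, List.mem_cons] at hv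
        rcases hv with rfl | rfl | hv
        · exact p.1.2
        · exact p.2.2
        · simp at hv
      · exact sub_ne_zero.2 fun e => h (Subtype.ext e.symm)
      · rw [List.isChain_cons_cons]
        refine ⟨?_, List.isChain_singleton _⟩
        exact real_inner_self_pos.2 (sub_ne_zero.2 fun e => h (Subtype.ext e.symm))
  · intro a ha b hb hab
    refine ⟨Fintype.equivFin (↥A × ↥A) (⟨a, ha⟩, ⟨b, hb⟩), Or.inl ⟨[], [], ?_⟩⟩
    simp only [Equiv.symm_apply_apply, List.nil_append]
    rw [if_neg]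
    intro e
    exact hab (congrArg Subtype.val e)

/-- the sum of the weights of the steps of a path -/
noncomputable def steps (w : E2 → E2 → ℝ) (l : List E2) : ℝ :=
  ((l.zip l.tail).map fun p => w p.1 p.2).sum

theorem steps_cons (w : E2 → E2 → ℝ) (a b : E2) (l : List E2) :
    steps w (a :: b :: l) = w a b + steps w (b :: l) := by
  simp [steps]

theorem mem_zip_of_consec {l : List E2} {a b : E2} (h : Consec l a b) :
    (a, b) ∈ l.zip l.tail := by
  obtain ⟨s, t, rfl⟩ := h
  induction s with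
  | nil => simp
  | cons c s ih =>
    rcases s with _ | ⟨d, s⟩
    · simp
    · rw [List.cons_append, List.cons_append, List.tail_cons, List.zip_cons_cons]
      rw [List.cons_append, List.tail_cons] at ih
      exact List.mem_cons_of_mem _ ih

/-- a potential bounds the weight of a path -/
theorem steps_le {w : E2 → E2 → ℝ} {A : Finset E2} {u : E2} {Ψ : ℝ → ℝ} {B : ℝ}
    (hB : 0 ≤ B)
    (hrange : ∀ v ∈ A, ∀ v' ∈ A, Ψ (inner ℝ v' u) - Ψ (inner ℝ v u) ≤ B)
    (hw : ∀ v ∈ A, ∀ v' ∈ A, (inner ℝ v u : ℝ) < inner ℝ v' u →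
      w v v' ≤ Ψ (inner ℝ v' u) - Ψ (inner ℝ v u)) {l : List E2} (hl : ∀ v ∈ l, v ∈ A)
    (hc : l.IsChain fun v w => (0 : ℝ) < inner ℝ (w - v) u) : steps w l ≤ B := by
  have key : ∀ (t : List E2) (a : E2), (∀ v ∈ a :: t, v ∈ A) →
      (a :: t).IsChain (fun v w => (0 : ℝ) < inner ℝ (w - v) u) →
      ∃ z ∈ A, steps w (a :: t) ≤ Ψ (inner ℝ z u) - Ψ (inner ℝ a u) := by
    intro t
    induction t with
    | nil =>
      intro a ha _
      refine ⟨a, ha a (List.mem_cons_self), ?_⟩
      simp [steps]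
    | cons b t ih =>
      intro a ha hch
      rw [List.isChain_cons_cons] at hch
      obtain ⟨z, hz, h1⟩ := ih b (fun v hv => ha v (List.mem_cons_of_mem _ hv)) hch.2
      refine ⟨z, hz, ?_⟩
      rw [steps_cons]
      have h2 := hch.1
      rw [inner_sub_left, sub_pos] at h2
      have h3 := hw a (ha a (List.mem_cons_self)) b (ha b (by simp)) h2
      linarith
  rcases l with _ | ⟨a, t⟩
  · simpa [steps] using hB
  · obtain ⟨z, hz, h1⟩ := key t a hl hc
    exact h1.trans (hrange a (hl a List.mem_cons_self) z hz)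

theorem sum_union_le' {α : Type} [DecidableEq α] (f : α → ℝ) (hf : ∀ x, 0 ≤ f x)
    (S T : Finset α) : ∑ e ∈ S ∪ T, f e ≤ ∑ e ∈ S, f e + ∑ e ∈ T, f e := by
  have h2 := sum_union_inter (s₁ := S) (s₂ := T) (f := f)
  have h3 : 0 ≤ ∑ e ∈ S ∩ T, f e := sum_nonneg fun e _ => hf e
  linarith

theorem sum_biUnion_le' {α ι : Type} [DecidableEq α] [DecidableEq ι] (f : α → ℝ)
    (hf : ∀ x, 0 ≤ f x) (s : Finset ι) (T : ι → Finset α) :
    ∑ e ∈ s.biUnion T, f e ≤ ∑ i ∈ s, ∑ e ∈ T i, f e := by
  induction s using Finset.induction_on with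
  | empty => simp
  | insert a s ha ih =>
    rw [biUnion_insert, sum_insert ha]
    exact (sum_union_le' f hf _ _).trans (by linarith)

/-- the steps of a covering family contain all edges -/
theorem sum_le_steps {A : Finset E2} {k : ℕ} {ξ : Fin k → List E2} (hξ : Cover A ξ)
    {w : E2 → E2 → ℝ} (hw0 : ∀ v v', 0 ≤ w v v') (hws : ∀ v v', w v v' = w v' v)
    {B : ℝ} (hB : ∀ i, steps w (ξ i) ≤ B) (E : Finset (E2 × E2))
    (hE : ∀ e ∈ E, e.1 ∈ A ∧ e.2 ∈ A ∧ e.1 ≠ e.2) :
    ∑ e ∈ E, w e.1 e.2 ≤ k * (2 * B) := by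
  classical
  let Z : Fin k → Finset (E2 × E2) := fun i => ((ξ i).zip (ξ i).tail).toFinset
  have hsub : E ⊆ univ.biUnion fun i => Z i ∪ (Z i).image Prod.swap := by
    intro e he
    obtain ⟨h1, h2, h3⟩ := hE e he
    obtain ⟨i, h | h⟩ := hξ.2 e.1 h1 e.2 h2 h3
    · exact mem_biUnion.2 ⟨i, mem_univ _, mem_union_left _
        (List.mem_toFinset.2 (mem_zip_of_consec h))⟩
    · refine mem_biUnion.2 ⟨i, mem_univ _, mem_union_right _ (mem_image.2
        ⟨(e.2, e.1), List.mem_toFinset.2 (mem_zip_of_consec h), rfl⟩)⟩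
  have hZ : ∀ i, ∑ e ∈ Z i, w e.1 e.2 ≤ B := by
    intro i
    refine le_trans ?_ (hB i)
    unfold steps
    have hlist : ∀ L : List (E2 × E2), ∑ e ∈ L.toFinset, w e.1 e.2 ≤
        (L.map fun p => w p.1 p.2).sum := by
      intro L
      induction L with
      | nil => simp
      | cons x L ih =>
        rw [List.toFinset_cons, List.map_cons, List.sum_cons]
        by_cases hx : x ∈ L.toFinset
        · rw [insert_eq_of_mem hx]
          linarith [hw0 x.1 x.2]
        · rw [sum_insert hx]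
          linarith
    exact hlist _
  have hswap : ∀ i, ∑ e ∈ (Z i).image Prod.swap, w e.1 e.2 = ∑ e ∈ Z i, w e.1 e.2 := by
    intro i
    rw [sum_image (fun x _ y _ h => Prod.swap_injective h)]
    exact sum_congr rfl fun e _ => hws _ _
  calc ∑ e ∈ E, w e.1 e.2 ≤
        ∑ e ∈ univ.biUnion fun i => Z i ∪ (Z i).image Prod.swap, w e.1 e.2 :=
        sum_le_sum_of_subset_of_nonneg hsub fun e _ _ => hw0 _ _
    _ ≤ ∑ i, ∑ e ∈ Z i ∪ (Z i).image Prod.swap, w e.1 e.2 :=
        sum_biUnion_le' (fun e : E2 × E2 => w e.1 e.2) (fun e => hw0 _ _) _ _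
    _ ≤ ∑ i : Fin k, 2 * B := by
        apply sum_le_sum
        intro i _
        have h1 := sum_union_le' (fun e : E2 × E2 => w e.1 e.2) (fun e => hw0 _ _) (Z i)
          ((Z i).image Prod.swap)
        rw [hswap] at h1
        linarith [hZ i]
    _ = k * (2 * B) := by
        rw [sum_const, card_univ, Fintype.card_fin, nsmul_eq_mul]

end Pool.Agent.KS6_54.MP
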