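import Mathlib

/-!
# MP_9c8b61_co: potentials for the rows
-/

set_option autoImplicit false

namespace Pool.Agent.KS6_54.MP

open Finset

/-- a potential for a sequence which is ordered as in the hypotheses -/
theorem exists_pot {M : ℕ} {h : ℕ → ℝ} {j : ℕ}
    (hA : ∀ k < j, ∀ l, k < l → l < M → h l < h k)
    (hB : ∀ k l, j < k → k < l → l < M → h k < h l) :
    ∃ Φ : ℝ → ℝ, Monotone Φ ∧ (∀ t, 0 ≤ Φ t ∧ Φ t ≤ 5 * M) ∧
      ∀ k l, k < l → l < M → (h k < h l → (l : ℝ) - k ≤ Φ (h l) - Φ (h k)) ∧
        (h l < h k → (l : ℝ) - k ≤ Φ (h k) - Φ (h l)) := by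
  classical
  let a : ℝ → ℕ := fun t => ((range M).filter fun k => h k < t).card
  let b : ℝ → ℕ := fun t => ((range M).filter fun k => h k ≤ t).card
  let c : ℝ → ℕ := fun t => if h j < t then M else 0
  let d : ℝ → ℕ := fun t => if h j ≤ t then M else 0
  let e : ℝ → ℕ := fun t => if h (j - 1) ≤ t then M else 0
  have ma : Monotone a := fun s t hst => card_le_card fun x hx => by
    rw [mem_filter] at hx ⊢
    exact ⟨hx.1, hx.2.trans_le hst⟩
  have mb : Monotone b := fun s t hst => card_le_card fun x hx => by
    rw [mem_filter] at hx ⊢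
    exact ⟨hx.1, hx.2.trans hst⟩
  have mc : Monotone c := fun s t hst => by
    simp only [c]
    split_ifs with h1 h2
    · exact le_rfl
    · exact absurd (h1.trans_le hst) h2
    · exact Nat.zero_le _
    · exact le_rfl
  have md : Monotone d := fun s t hst => by
    simp only [d]
    split_ifs with h1 h2
    · exact le_rfl
    · exact absurd (h1.trans hst) h2
    · exact Nat.zero_le _
    · exact le_rfl
  have me : Monotone e := fun s t hst => by
    simp only [e]
    split_ifs with h1 h2
    · exact le_rfl
    · exact absurd (h1.trans hst) h2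
    · exact Nat.zero_le _
    · exact le_rfl
  have ba : ∀ t, a t ≤ M := fun t => (card_filter_le _ _).trans (by rw [card_range])
  have bb : ∀ t, b t ≤ M := fun t => (card_filter_le _ _).trans (by rw [card_range])
  have bc : ∀ t, c t ≤ M := fun t => by simp only [c]; split_ifs <;> omega
  have bd : ∀ t, d t ≤ M := fun t => by simp only [d]; split_ifs <;> omega
  have be : ∀ t, e t ≤ M := fun t => by simp only [e]; split_ifs <;> omega
  let F : ℝ → ℕ := fun t => a t + b t + c t + d t + e t
  have key : ∀ k l, k < l → l < M → (h k < h l → l + F (h k) ≤ k + F (h l)) ∧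
      (h l < h k → l + F (h l) ≤ k + F (h k)) := by
    intro k l hkl hl
    constructor
    · intro hlt
      have m1 := ma hlt.le
      have m2 := mb hlt.le
      have m3 := mc hlt.le
      have m4 := md hlt.le
      have m5 := me hlt.le
      rcases Nat.lt_trichotomy k j with h1 | h1 | h1
      · exact absurd hlt (hA k h1 l hkl hl).not_gt
      · subst h1
        have e1 : c (h l) = M := if_pos hlt
        have e2 : c (h k) = 0 := if_neg (lt_irrefl _)
        simp only [F]
        omega
      · have e1 : a (h k) + (l - k) ≤ a (h l) := by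
          have : ((range M).filter fun m => h m < h k).card + (Ico k l).card ≤
              ((range M).filter fun m => h m < h l).card := by
            rw [← card_union_of_disjoint]
            · apply card_le_card
              intro m hm
              rw [mem_union] at hm
              rw [mem_filter]
              rcases hm with hm | hm
              · rw [mem_filter] at hm
                exact ⟨hm.1, hm.2.trans hlt⟩
              · rw [mem_Ico] at hm
                exact ⟨mem_range.2 (by omega), hB m l (by omega) hm.2 hl⟩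
            · rw [disjoint_left]
              intro m hm hm'
              rw [mem_filter] at hm
              rw [mem_Ico] at hm'
              rcases Nat.eq_or_lt_of_le hm'.1 with h2 | h2
              · rw [← h2] at hm
                exact lt_irrefl _ hm.2
              · exact lt_asymm hm.2 (hB k m h1 h2 (by omega))
          rw [Nat.card_Ico] at this
          exact this
        simp only [F]
        omega
    · intro hlt
      have m1 := ma hlt.le
      have m2 := mb hlt.le
      have m3 := mc hlt.le
      have m4 := md hlt.le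
      have m5 := me hlt.le
      rcases Nat.lt_trichotomy k j with h1 | h1 | h1
      · have e1 : b (h l) + (min l j - k) ≤ b (h k) := by
          have : ((range M).filter fun m => h m ≤ h l).card + (Ico k (min l j)).card ≤
              ((range M).filter fun m => h m ≤ h k).card := by
            rw [← card_union_of_disjoint]
            · apply card_le_card
              intro m hm
              rw [mem_union] at hm
              rw [mem_filter]
              rcases hm with hm | hm
              · rw [mem_filter] at hm
                exact ⟨hm.1, hm.2.trans hlt.le⟩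
              · rw [mem_Ico] at hm
                refine ⟨mem_range.2 (by omega), ?_⟩
                rcases Nat.eq_or_lt_of_le hm.1 with h2 | h2
                · rw [h2]
                · exact (hA k h1 m h2 (by omega)).le
            · rw [disjoint_left]
              intro m hm hm'
              rw [mem_filter] at hm
              rw [mem_Ico] at hm'
              exact absurd hm.2 (not_le.2 (hA m (by omega) l (by omega) hl))
          rw [Nat.card_Ico] at this
          exact this
        rcases Nat.lt_or_ge l j with h2 | h2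
        · rw [min_eq_left h2.le] at e1
          simp only [F]
          omega
        · rw [min_eq_right h2] at e1
          have h3 : h (j - 1) ≤ h k := by
            rcases Nat.eq_or_lt_of_le (show k ≤ j - 1 by omega) with h4 | h4
            · rw [h4]
            · exact (hA k h1 (j - 1) h4 (by omega)).le
          have h4 : h l < h (j - 1) := hA (j - 1) (by omega) l (by omega) hl
          have e2 : e (h k) = M := if_pos h3
          have e3 : e (h l) = 0 := if_neg (not_le.2 h4)
          simp only [F]
          omega
      · subst h1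
        have e1 : d (h k) = M := if_pos le_rfl
        have e2 : d (h l) = 0 := if_neg (not_le.2 hlt)
        simp only [F]
        omega
      · exact absurd hlt (hB k l h1 hkl hl).not_gt
  refine ⟨fun t => (F t : ℝ), ?_, ?_, ?_⟩
  · intro s t hst
    have m1 := ma hst
    have m2 := mb hst
    have m3 := mc hst
    have m4 := md hst
    have m5 := me hst
    have : F s ≤ F t := by
      simp only [F]
      omega
    exact Nat.cast_le.2 this
  · intro t
    refine ⟨Nat.cast_nonneg _, ?_⟩
    have : F t ≤ 5 * M := by
      have := ba t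
      have := bb t
      have := bc t
      have := bd t
      have := be t
      simp only [F]
      omega
    have h' : ((F t : ℕ) : ℝ) ≤ ((5 * M : ℕ) : ℝ) := Nat.cast_le.2 this
    push_cast at h'
    exact h'
  · intro k l hkl hl
    obtain ⟨h1, h2⟩ := key k l hkl hl
    constructor
    · intro h3
      have h4 : (l : ℝ) + F (h k) ≤ k + F (h l) := by exact_mod_cast h1 h3
      linarith
    · intro h3
      have h4 : (l : ℝ) + F (h l) ≤ k + F (h k) := by exact_mod_cast h2 h3
      linarith

/-- the order of a lacunary sequence -/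
theorem exists_j {M : ℕ} {ε α β : ℝ} (hε : 0 < ε) (hεM : ε * (M + 1) < 1) (hβ : 0 ≤ β)
    (hne : α ≠ 0 ∨ β ≠ 0) :
    ∃ j : ℕ, (∀ k < j, ∀ l, k < l → l < M → α * l + β * ε ^ l < α * k + β * ε ^ k) ∧
      (∀ k l, j < k → k < l → l < M → α * k + β * ε ^ k < α * l + β * ε ^ l) := by
  have hM0 : (0 : ℝ) ≤ M := Nat.cast_nonneg M
  have hε1 : ε < 1 := by nlinarith
  rcases lt_trichotomy α 0 with hα | hα | hα
  · refine ⟨M, ?_, fun k l h1 h2 h3 => by omega⟩
    intro k _ l hkl hl
    have h1 : ε ^ l ≤ ε ^ k := pow_le_pow_of_le_one hε.le hε1.le hkl.le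
    have h2 : (k : ℝ) < l := by exact_mod_cast hkl
    nlinarith [mul_le_mul_of_nonneg_left h1 hβ]
  · refine ⟨M, ?_, fun k l h1 h2 h3 => by omega⟩
    intro k _ l hkl hl
    have h1 : ε ^ l < ε ^ k := pow_lt_pow_right_of_lt_one₀ hε hε1 hkl
    have hβ' : 0 < β := lt_of_le_of_ne hβ (fun e => by
      rcases hne with h | h
      · exact h hα
      · exact h e.symm)
    rw [hα]
    nlinarith [mul_lt_mul_of_pos_left h1 hβ']
  · have hex : ∃ j : ℕ, β * ε ^ (j + 1) < α := by
      have h1 : Filter.Tendsto (fun j : ℕ => β * ε ^ (j + 1)) Filter.atTop (nhds (β * 0)) :=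
        ((tendsto_pow_atTop_nhds_zero_of_lt_one hε.le hε1).comp
          (Filter.tendsto_add_atTop_nat 1)).const_mul β
      rw [mul_zero] at h1
      exact (h1.eventually_lt_const hα).exists
    classical
    refine ⟨Nat.find hex, ?_, ?_⟩
    · intro k hk l hkl hl
      have h1 := Nat.find_min hex hk
      rw [not_lt] at h1
      have h2 : ε ^ l ≤ ε ^ (k + 1) := pow_le_pow_of_le_one hε.le hε1.le hkl
      have h3 : (l : ℝ) - k ≤ M := by
        have : (l : ℝ) < M := by exact_mod_cast hl
        have : (0 : ℝ) ≤ k := Nat.cast_nonneg k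
        linarith
      have h4 : (k : ℝ) < l := by exact_mod_cast hkl
      have h5 : ε ^ (k + 1) = ε ^ k * ε := pow_succ ε k
      have hpos : 0 < ε ^ k := pow_pos hε k
      have hβε : 0 ≤ β * ε ^ k := mul_nonneg hβ hpos.le
      have hβpos : 0 < β * ε ^ k := by
        rcases hβε.lt_or_eq with h | h
        · exact h
        · rw [h5, ← mul_assoc, ← h, zero_mul] at h1
          linarith
      have h6 : α * ((l : ℝ) - k) ≤ β * ε ^ k * ε * M := by
        calc α * ((l : ℝ) - k) ≤ (β * ε ^ (k + 1)) * ((l : ℝ) - k) :=
              mul_le_mul_of_nonneg_right h1 (by linarith)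
          _ ≤ (β * ε ^ (k + 1)) * M := mul_le_mul_of_nonneg_left h3 (by positivity)
          _ = β * ε ^ k * ε * M := by rw [h5]; ring
      have h7 : β * ε ^ l ≤ β * ε ^ k * ε := by
        calc β * ε ^ l ≤ β * ε ^ (k + 1) := mul_le_mul_of_nonneg_left h2 hβ
          _ = β * ε ^ k * ε := by rw [h5]; ring
      have h8 : β * ε ^ k * (ε * (M + 1)) < β * ε ^ k * 1 := mul_lt_mul_of_pos_left hεM hβpos
      nlinarith
    · intro k l hk hkl hl
      have h1 := Nat.find_spec hex
      have h2 : ε ^ k ≤ ε ^ (Nat.find hex + 1) := pow_le_pow_of_le_one hε.le hε1.le hk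
      have h3 : β * ε ^ k < α := lt_of_le_of_lt (mul_le_mul_of_nonneg_left h2 hβ) h1
      have h4 : (k : ℝ) + 1 ≤ l := by exact_mod_cast hkl
      have h5 : 0 ≤ β * ε ^ l := by positivity
      nlinarith

/-- the potential of a row -/
theorem row_pot {M : ℕ} {ε α β : ℝ} (hε : 0 < ε) (hεM : ε * (M + 1) < 1)
    (hne : α ≠ 0 ∨ β ≠ 0) (c : ℝ) :
    ∃ Φ : ℝ → ℝ, Monotone Φ ∧ (∀ t, 0 ≤ Φ t ∧ Φ t ≤ 5 * M) ∧
      ∀ k l : ℕ, k < M → l < M → c + (α * k + β * ε ^ k) < c + (α * l + β * ε ^ l) →
        |(l : ℝ) - k| ≤ Φ (c + (α * l + β * ε ^ l)) - Φ (c + (α * k + β * ε ^ k)) := by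
  have main : ∀ {α β : ℝ}, 0 ≤ β → (α ≠ 0 ∨ β ≠ 0) → ∃ Φ : ℝ → ℝ, Monotone Φ ∧
      (∀ t, 0 ≤ Φ t ∧ Φ t ≤ 5 * M) ∧
      ∀ k l : ℕ, k < M → l < M → α * k + β * ε ^ k < α * l + β * ε ^ l →
        |(l : ℝ) - k| ≤ Φ (α * l + β * ε ^ l) - Φ (α * k + β * ε ^ k) := by
    intro α β hβ hne
    obtain ⟨j, hA, hB⟩ := exists_j (M := M) hε hεM hβ hne
    obtain ⟨Φ, h1, h2, h3⟩ := exists_pot (M := M) (h := fun k : ℕ => α * k + β * ε ^ k) hA hB
    refine ⟨Φ, h1, h2, ?_⟩
    intro k l hk hl hlt
    rcases Nat.lt_trichotomy k l with h | h | h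
    · have : (k : ℝ) < l := by exact_mod_cast h
      rw [abs_of_pos (by linarith)]
      exact (h3 k l h hl).1 hlt
    · rw [h] at hlt
      exact absurd hlt (lt_irrefl _)
    · have : (l : ℝ) < k := by exact_mod_cast h
      rw [abs_of_neg (by linarith), neg_sub]
      exact (h3 l k h hk).2 hlt
  rcases le_or_gt 0 β with hβ | hβ
  · obtain ⟨Φ, h1, h2, h3⟩ := main hβ hne
    refine ⟨fun t => Φ (t - c), fun s t hst => h1 (by linarith), fun t => h2 _, ?_⟩
    intro k l hk hl hlt
    simp only [add_sub_cancel_left]
    exact h3 k l hk hl (by linarith)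
  · obtain ⟨Φ, h1, h2, h3⟩ := main (α := -α) (β := -β) (by linarith) (by
      rcases hne with h | h
      · exact Or.inl (neg_ne_zero.2 h)
      · exact Or.inr (neg_ne_zero.2 h))
    refine ⟨fun t => 5 * M - Φ (c - t), fun s t hst => ?_, fun t => ?_, ?_⟩
    · have := h1 (show c - t ≤ c - s by linarith)
      simp only
      linarith
    · obtain ⟨e1, e2⟩ := h2 (c - t)
      constructor <;> linarith
    · intro k l hk hl hlt
      have h4 := h3 l k hl hk (by linarith)
      rw [abs_sub_comm]
      have e1 : c - (c + (α * (l : ℝ) + β * ε ^ l)) = -α * l + -β * ε ^ l := by ring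
      have e2 : c - (c + (α * (k : ℝ) + β * ε ^ k)) = -α * k + -β * ε ^ k := by ring
      simp only
      rw [e1, e2]
      linarith

end Pool.Agent.KS6_54.MP
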